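import Pool.Agent.WR4.Stmts

set_option autoImplicit false

/-!
# Row EQD of squad WR4 (MP_0f3fac_nt): closeness in measure
-/

namespace Pool.Agent.WR4.H81

open Pool.Agent.WIR Pool.Agent.WR2 Pool.Agent.WR3 Pool.Agent.WR4

/-- The proof of row EQD: the inequality of Markov. -/
theorem eqd (hlim : LimStmt) (htco : TcoStmt) : EqdStmt := by
  classical
  intro σ hσ ρ hρ ε hε
  obtain ⟨m0, hm0⟩ := hlim σ hσ ρ hρ (ε ^ 2 / 2) (by positivity)
  obtain ⟨X2, hX2⟩ := htco (ε / 2) (by positivity)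
  refine ⟨m0, fun m hm => ?_⟩
  obtain ⟨X1, hX1⟩ := hm0 m hm
  refine ⟨max X1 X2, fun X hX => ?_⟩
  have h1 := hX1 X ((le_max_left _ _).trans hX)
  have h2 := hX2 X ((le_max_right _ _).trans hX)
  set f : ℕ → ℝ := fun a => |ρ a - 2 * σ * wr m a| with hf
  have hsub : (Finset.Icc 1 X).filter (fun a => ε < f a) ⊆
      (Finset.Icc 1 X).filter (fun a => a ∉ TX X) ∪ (TF X).filter (fun a => ε < f a) := by
    intro a ha
    rw [Finset.mem_filter] at ha
    rw [Finset.mem_union, Finset.mem_filter, Finset.mem_filter]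
    by_cases hT : a ∈ TX X
    · refine Or.inr ⟨?_, ha.2⟩
      unfold TF
      exact Finset.mem_filter.2 ⟨ha.1, hT⟩
    · exact Or.inl ⟨ha.1, hT⟩
  have h3 : (((Finset.Icc 1 X).filter (fun a => ε < f a)).card : ℝ) ≤
      (((Finset.Icc 1 X).filter (fun a => a ∉ TX X)).card : ℝ) +
        (((TF X).filter (fun a => ε < f a)).card : ℝ) := by
    have := (Finset.card_le_card hsub).trans (Finset.card_union_le _ _)
    exact_mod_cast this
  have h4 : (((TF X).filter (fun a => ε < f a)).card : ℝ) * ε ≤ ∑ a ∈ TF X, f a := by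
    calc (((TF X).filter (fun a => ε < f a)).card : ℝ) * ε =
        ∑ _a ∈ (TF X).filter (fun a => ε < f a), ε := by rw [Finset.sum_const, nsmul_eq_mul]
      _ ≤ ∑ a ∈ (TF X).filter (fun a => ε < f a), f a :=
          Finset.sum_le_sum fun a ha => (Finset.mem_filter.1 ha).2.le
      _ ≤ ∑ a ∈ TF X, f a :=
          Finset.sum_le_sum_of_subset_of_nonneg (Finset.filter_subset _ _)
            fun a _ _ => abs_nonneg _
  have h5 : (((TF X).filter (fun a => ε < f a)).card : ℝ) ≤ ε / 2 * X := by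
    have h6 : (((TF X).filter (fun a => ε < f a)).card : ℝ) * ε ≤ (ε / 2 * X) * ε := by
      refine h4.trans (h1.trans (le_of_eq ?_))
      ring
    exact le_of_mul_le_mul_right h6 hε
  have h7 : (((Finset.Icc 1 X).filter (fun a => ε < f a)).card : ℝ) ≤ ε * X := by
    linarith
  exact h7

end Pool.Agent.WR4.H81
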